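import Pool.Agent.Lib.MP_b40da5_nt_h57.Tree

/-!
# No coincidences between the families of degree two and three

The exceptional triples in the families `rt y`, `cA (rt y)` and `tt y (y ± 1)` with the same
`k` have the same `y`.
-/

set_option autoImplicit false

namespace Pool.Agent.Lib.MP_b40da5_nt.Tree

lemma mono_aux {y z : ℤ} (hy : 1 ≤ y) (h : y < z) :
    4 * y ^ 3 + 4 * y ^ 2 + 3 * y + 1 < 4 * z ^ 3 - 4 * z ^ 2 + 3 * z - 1 := by
  obtain ⟨d, hd⟩ : ∃ d : ℤ, z = y + 1 + d := ⟨z - y - 1, by ring⟩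
  have hd0 : 0 ≤ d := by omega
  subst hd
  have h0 : 0 ≤ y := by omega
  nlinarith [mul_nonneg h0 hd0, mul_nonneg (mul_nonneg h0 h0) hd0, mul_nonneg (mul_nonneg h0 hd0) hd0,
    mul_nonneg (mul_nonneg hd0 hd0) hd0, mul_nonneg hd0 hd0, mul_nonneg h0 h0]

/-- the three cubics, `s = 0, 1, -1` -/
def cub (y s : ℤ) : ℤ := 4 * y ^ 3 + s * (4 * y ^ 2 + 1) + (4 * s ^ 2 - 1) * y

lemma cub_inj {y z s s' : ℤ} (hy : 1 ≤ y) (hz : 1 ≤ z) (hs : s = 0 ∨ s = 1 ∨ s = -1)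
    (hs' : s' = 0 ∨ s' = 1 ∨ s' = -1) (h : cub y s = cub z s') : y = z ∧ s = s' := by
  unfold cub at h
  have hyz : y = z := by
    rcases lt_trichotomy y z with h1 | h1 | h1
    · exfalso
      have := mono_aux hy h1
      rcases hs with rfl | rfl | rfl <;> rcases hs' with rfl | rfl | rfl <;> nlinarith
    · exact h1
    · exfalso
      have := mono_aux hz h1
      rcases hs with rfl | rfl | rfl <;> rcases hs' with rfl | rfl | rfl <;> nlinarith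
  refine ⟨hyz, ?_⟩
  subst hyz
  rcases hs with rfl | rfl | rfl <;> rcases hs' with rfl | rfl | rfl <;> first | rfl | nlinarith

lemma sq_of_coprime_pos {a b c : ℤ} (h : IsCoprime a b) (ha : 0 < a) (heq : a * b = c ^ 2) :
    ∃ w : ℤ, 0 < w ∧ a = w ^ 2 := by
  obtain ⟨w, hw | hw⟩ := Int.sq_of_isCoprime h heq
  · refine ⟨|w|, ?_, by rw [sq_abs]; exact hw⟩
    apply abs_pos.mpr
    rintro rfl
    simp at hw
    omega
  · nlinarith [sq_nonneg w]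

lemma no_A {t y : ℤ} (hy : 1 ≤ y) (h : 2 * t ^ 2 = 4 * y ^ 3 - y) : False := by
  have h2 : (2 : ℤ) ∣ y := ⟨2 * y ^ 3 - t ^ 2, by linarith⟩
  obtain ⟨w, rfl⟩ := h2
  have h3 : (16 * w ^ 2 - 1) * w = t ^ 2 := by nlinarith
  have hw : 1 ≤ w := by omega
  have hcop : IsCoprime (16 * w ^ 2 - 1) w := ⟨-1, 16 * w, by ring⟩
  obtain ⟨v, hv, hv2⟩ := sq_of_coprime_pos hcop (by nlinarith) h3
  have h4 : v < 4 * w := by
    by_contra hcon
    push Not at hcon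
    nlinarith
  nlinarith

lemma no_Tp {t y : ℤ} (hy : 1 ≤ y) (h : 2 * t ^ 2 = 4 * y ^ 3 + 4 * y ^ 2 + 3 * y + 1) : False := by
  have h1 : 2 * t ^ 2 = (2 * y ^ 2 + y + 1) * (2 * y + 1) := by linarith
  have h2 : (2 : ℤ) ∣ 2 * y ^ 2 + y + 1 := by
    have h3 : (2 : ℤ) ∣ (2 * y ^ 2 + y + 1) * (2 * y + 1) := ⟨t ^ 2, h1.symm⟩
    have h4 : IsCoprime (2 : ℤ) (2 * y + 1) := ⟨-y, 1, by ring⟩
    exact h4.dvd_of_dvd_mul_right h3
  obtain ⟨v, hv⟩ := h2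
  have h3 : v * (2 * y + 1) = t ^ 2 := by rw [hv] at h1; linarith
  have hcop : IsCoprime v (2 * y + 1) := ⟨2, -y, by linarith⟩
  obtain ⟨w, hw, hw2⟩ := sq_of_coprime_pos hcop (by nlinarith) h3
  have h5 : (4 * w) ^ 2 = (4 * y + 1) ^ 2 + 7 := by nlinarith
  have h6 : y < w := by
    by_contra hcon
    push Not at hcon
    nlinarith
  nlinarith

lemma no_Tm {t y : ℤ} (hy : 2 ≤ y) (h : 2 * t ^ 2 = 4 * y ^ 3 - 4 * y ^ 2 + 3 * y - 1) : False := by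
  have h1 : 2 * t ^ 2 = (2 * y ^ 2 - y + 1) * (2 * y - 1) := by linarith
  have h2 : (2 : ℤ) ∣ 2 * y ^ 2 - y + 1 := by
    have h3 : (2 : ℤ) ∣ (2 * y ^ 2 - y + 1) * (2 * y - 1) := ⟨t ^ 2, h1.symm⟩
    have h4 : IsCoprime (2 : ℤ) (2 * y - 1) := ⟨y, -1, by ring⟩
    exact h4.dvd_of_dvd_mul_right h3
  obtain ⟨v, hv⟩ := h2
  have h3 : v * (2 * y - 1) = t ^ 2 := by rw [hv] at h1; linarith
  have hcop : IsCoprime v (2 * y - 1) := ⟨2, -y, by linarith⟩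
  obtain ⟨w, hw, hw2⟩ := sq_of_coprime_pos hcop (by nlinarith) h3
  have h5 : (4 * w) ^ 2 = (4 * y - 1) ^ 2 + 7 := by nlinarith
  have h6 : y ≤ w := by
    by_contra hcon
    push Not at hcon
    nlinarith
  nlinarith

/-- the value of `k` in the three families -/
lemma fam_cases {y1 k X1 : ℤ} (h : Exc (y1, k, X1))
    (c : (∃ y, (y1, k, X1) = rt y) ∨ (∃ y, (y1, k, X1) = cA (rt y)) ∨
      (∃ y m, (m = y + 1 ∨ m = y - 1) ∧ (y1, k, X1) = tt y m)) :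
    (2 ≤ y1 ∧ k = 2 * y1 ^ 2) ∨
      (∃ y s : ℤ, (s = 0 ∨ s = 1 ∨ s = -1) ∧ 1 ≤ y ∧ (s = -1 → 2 ≤ y) ∧ k = cub y s ∧
        (y1 = if s = 0 then 2 * y ^ 2 else y)) := by
  have hX : (2 : ℤ) ≤ X1 := h.2.2.1
  have hy : (1 : ℤ) ≤ y1 := h.1
  rcases c with ⟨y, hy'⟩ | ⟨y, hy'⟩ | ⟨y, m, hm, hy'⟩
  · left
    have h1 : y1 = y := congrArg Prod.fst hy'
    have h2 : k = 2 * y ^ 2 := congrArg (fun t => t.2.1) hy'
    have h3 : X1 = y := congrArg (fun t => t.2.2) hy'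
    subst h1
    exact ⟨by omega, h2⟩
  · right
    have h1 : y1 = 2 * y ^ 2 := congrArg Prod.fst hy'
    have h2 : k = 2 * y * (2 * y ^ 2) - y := congrArg (fun t => t.2.1) hy'
    have h3 : X1 = y := congrArg (fun t => t.2.2) hy'
    refine ⟨y, 0, Or.inl rfl, by omega, by norm_num, ?_, by simp [h1]⟩
    unfold cub
    linarith
  · right
    have h1 : y1 = y := congrArg Prod.fst hy'
    have h2 : k = 4 * y ^ 2 * m + 2 * y + m := congrArg (fun t => t.2.1) hy'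
    have h3 : X1 = 2 * y * m + 1 := congrArg (fun t => t.2.2) hy'
    rcases hm with rfl | rfl
    · refine ⟨y, 1, Or.inr (Or.inl rfl), by omega, by norm_num, ?_, by simp [h1]⟩
      unfold cub
      linarith
    · refine ⟨y, -1, Or.inr (Or.inr rfl), by omega, fun _ => ?_, ?_, by simp [h1]⟩
      · by_contra hcon
        have : y = 1 := by omega
        subst this
        norm_num at h3
        omega
      · unfold cub
        linarith

theorem root_ne {t y s : ℤ} (hs : s = 0 ∨ s = 1 ∨ s = -1) (hy : 1 ≤ y)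
    (hm : s = -1 → 2 ≤ y) (h : 2 * t ^ 2 = cub y s) : False := by
  unfold cub at h
  rcases hs with rfl | rfl | rfl
  · exact no_A hy (by linarith)
  · exact no_Tp hy (by linarith)
  · exact no_Tm (hm rfl) (by linarith)

theorem coincide {y1 y2 k X1 X2 : ℤ} (h1 : Exc (y1, k, X1)) (h2 : Exc (y2, k, X2))
    (c1 : (∃ y, (y1, k, X1) = rt y) ∨ (∃ y, (y1, k, X1) = cA (rt y)) ∨
      (∃ y m, (m = y + 1 ∨ m = y - 1) ∧ (y1, k, X1) = tt y m))
    (c2 : (∃ y, (y2, k, X2) = rt y) ∨ (∃ y, (y2, k, X2) = cA (rt y)) ∨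
      (∃ y m, (m = y + 1 ∨ m = y - 1) ∧ (y2, k, X2) = tt y m)) : y1 = y2 := by
  rcases fam_cases h1 c1 with ⟨a1, a2⟩ | ⟨y, s, hs, hy, hm, hk, e1⟩
  · rcases fam_cases h2 c2 with ⟨b1, b2⟩ | ⟨z, s', hs', hz, hm', hk', e2⟩
    · have : y1 ^ 2 = y2 ^ 2 := by linarith
      nlinarith
    · exact (root_ne hs' hz hm' (by rw [← a2, hk'])).elim
  · rcases fam_cases h2 c2 with ⟨b1, b2⟩ | ⟨z, s', hs', hz, hm', hk', e2⟩
    · exact (root_ne hs hy hm (by rw [← b2, hk])).elim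
    · obtain ⟨rfl, rfl⟩ := cub_inj hy hz hs hs' (by rw [← hk, ← hk'])
      rw [e1, e2]

end Pool.Agent.Lib.MP_b40da5_nt.Tree
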