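import Pool.Agent.Lib.MP_b40da5_nt_h57.Weights

/-!
# Counting the exceptional triples outside the families of degree `2` and `3`
-/

set_option autoImplicit false

namespace Pool.Agent.Lib.MP_b40da5_nt.Tree

open Finset

def IsR (t : ℤ × ℤ × ℤ) : Prop := ∃ y, t = rt y
def IsRA (t : ℤ × ℤ × ℤ) : Prop := ∃ y, t = cA (rt y)
def IsT (t : ℤ × ℤ × ℤ) : Prop := ∃ y m, (m = y + 1 ∨ m = y - 1) ∧ t = tt y m

open Classical in
/-- exceptional triples up to `N` -/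
noncomputable def Ex (N : ℕ) : Finset (ℤ × ℤ × ℤ) :=
  (Icc (1 : ℤ) N ×ˢ Icc (1 : ℤ) N ×ˢ Icc (1 : ℤ) N).filter Exc

theorem mem_Ex {N : ℕ} {t : ℤ × ℤ × ℤ} : t ∈ Ex N ↔ Exc t ∧ t.2.1 ≤ N := by
  simp only [Ex, mem_filter, mem_product, mem_Icc]
  constructor
  · rintro ⟨⟨_, h2, _⟩, h⟩
    exact ⟨h, h2.2⟩
  · rintro ⟨h, hN⟩
    have hX := X_lt (a := t.1) (b := t.2.1) (X := t.2.2) h
    obtain ⟨h1, h2, h3, h4⟩ := h
    exact ⟨⟨⟨h1, by linarith⟩, ⟨by linarith, hN⟩, ⟨by linarith, by linarith⟩⟩, h1, h2, h3, h4⟩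

open Classical in
/-- exceptional triples outside the families of degree at most `3` -/
noncomputable def E2 (N : ℕ) : Finset (ℤ × ℤ × ℤ) :=
  (Ex N).filter fun t => ¬ IsR t ∧ ¬ IsRA t ∧ ¬ IsT t

/-- the children -/
def ch (t : ℤ × ℤ × ℤ) : Finset (ℤ × ℤ × ℤ) := {cA t, cB t, cC t}

/-- the new starting points with parameter `y` -/
def fam (y : ℤ) : Finset (ℤ × ℤ × ℤ) :=
  {cB (rt y), cC (rt y)} ∪ (ch (cA (rt y)) ∪ (ch (tt y (y + 1)) ∪ ch (tt y (y - 1))))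

open Classical in
/-- finitely many small cases -/
noncomputable def small : Finset (ℤ × ℤ × ℤ) := (Ex 205).biUnion ch

theorem mem_small {t q : ℤ × ℤ × ℤ} (ht : Exc t) (h : t.2.1 ≤ 205) (hq : q ∈ ch t) :
    q ∈ small := by
  unfold small
  simp only [mem_biUnion]
  refine ⟨t, ?_, hq⟩
  rw [mem_Ex]
  exact ⟨ht, h⟩

attribute [irreducible] small

theorem card_fam (y : ℤ) : (fam y).card ≤ 11 := by
  unfold fam ch
  refine (card_union_le _ _).trans ?_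
  have h1 := card_union_le ({cA (cA (rt y)), cB (cA (rt y)), cC (cA (rt y))} :
    Finset (ℤ × ℤ × ℤ)) (({cA (tt y (y + 1)), cB (tt y (y + 1)), cC (tt y (y + 1))} :
    Finset (ℤ × ℤ × ℤ)) ∪ {cA (tt y (y - 1)), cB (tt y (y - 1)), cC (tt y (y - 1))})
  have h2 := card_union_le ({cA (tt y (y + 1)), cB (tt y (y + 1)), cC (tt y (y + 1))} :
    Finset (ℤ × ℤ × ℤ)) {cA (tt y (y - 1)), cB (tt y (y - 1)), cC (tt y (y - 1))}
  have h3 : ({cB (rt y), cC (rt y)} : Finset (ℤ × ℤ × ℤ)).card ≤ 2 := card_le_two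
  have h4 : ({cA (cA (rt y)), cB (cA (rt y)), cC (cA (rt y))} : Finset (ℤ × ℤ × ℤ)).card ≤ 3 :=
    card_le_three
  have h5 : ({cA (tt y (y + 1)), cB (tt y (y + 1)), cC (tt y (y + 1))} :
    Finset (ℤ × ℤ × ℤ)).card ≤ 3 := card_le_three
  have h6 : ({cA (tt y (y - 1)), cB (tt y (y - 1)), cC (tt y (y - 1))} :
    Finset (ℤ × ℤ × ℤ)).card ≤ 3 := card_le_three
  omega

theorem fam_large {y : ℤ} (hy : 1 ≤ y) {t : ℤ × ℤ × ℤ} (ht : t ∈ fam y) :
    y ^ 4 ≤ t.2.1 := by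
  obtain ⟨z, rfl⟩ : ∃ z : ℕ, y = (z : ℤ) + 1 := ⟨(y - 1).toNat, by omega⟩
  have hz : (0 : ℤ) ≤ z := Int.natCast_nonneg z
  unfold fam ch at ht
  simp only [mem_union, mem_insert, mem_singleton] at ht
  rcases ht with (rfl | rfl) | (rfl | rfl | rfl) | (rfl | rfl | rfl) | (rfl | rfl | rfl) <;>
    simp only [cA, cB, cC, rt, tt] <;> rw [← sub_nonneg] <;> ring_nf <;> positivity

theorem sum_union_le {α : Type*} [DecidableEq α] (s t : Finset α) (f : α → ℝ)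
    (hf : ∀ a, 0 ≤ f a) : ∑ a ∈ s ∪ t, f a ≤ ∑ a ∈ s, f a + ∑ a ∈ t, f a := by
  have := Finset.sum_union_inter (s₁ := s) (s₂ := t) (f := f)
  have h2 : 0 ≤ ∑ a ∈ s ∩ t, f a := Finset.sum_nonneg fun a _ => hf a
  linarith

theorem sum_biUnion_le {ι α : Type*} [DecidableEq α] (s : Finset ι) (F : ι → Finset α)
    (f : α → ℝ) (hf : ∀ a, 0 ≤ f a) :
    ∑ a ∈ s.biUnion F, f a ≤ ∑ i ∈ s, ∑ a ∈ F i, f a := by
  classical
  induction s using Finset.induction_on with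
  | empty => simp
  | insert i s hi ih =>
    rw [Finset.biUnion_insert, Finset.sum_insert hi]
    exact (sum_union_le _ _ f hf).trans (by linarith)

theorem exc_rt {y : ℤ} (h : Exc (rt y)) : 2 ≤ y := h.2.2.1

theorem cover (N Y : ℕ) (hY : ∀ y : ℕ, y ^ 4 ≤ N → y ≤ Y) :
    E2 N ⊆ ((E2 N).filter fun t => 206 ≤ t.2.1).biUnion ch ∪
      ((range Y).biUnion (fun y => fam ((y : ℤ) + 1)) ∪ small) := by
  classical
  intro q hq
  unfold E2 at hq
  rw [mem_filter, mem_Ex] at hq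
  obtain ⟨⟨hE, hN⟩, hR, hRA, hT⟩ := hq
  -- membership in a family
  have hfam : ∀ y : ℤ, 1 ≤ y → q ∈ fam y →
      q ∈ (range Y).biUnion (fun y => fam ((y : ℤ) + 1)) := by
    intro y hy hqy
    rw [mem_biUnion]
    have h1 := fam_large hy hqy
    have h2 : y ^ 4 ≤ N := h1.trans hN
    obtain ⟨z, rfl⟩ : ∃ z : ℕ, y = (z : ℤ) + 1 := ⟨(y - 1).toNat, by omega⟩
    refine ⟨z, ?_, hqy⟩
    rw [mem_range]
    have h3 := hY (z + 1) (by exact_mod_cast h2)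
    omega
  obtain ⟨a, b, X⟩ := q
  rcases descent hE with h | ⟨m, hm, h⟩ | ⟨t, ht, htb, hq⟩
  · exact absurd ⟨a, h⟩ hR
  · exact absurd ⟨a, m, hm, h⟩ hT
  · have hch : (a, b, X) ∈ ch t := by
      unfold ch
      simp only [mem_insert, mem_singleton]
      exact hq
    by_cases h205 : t.2.1 ≤ 205
    · rw [mem_union, mem_union]
      right; right
      exact mem_small ht h205 hch
    · by_cases h1 : IsR t
      · obtain ⟨y, rfl⟩ := h1
        have hy := exc_rt ht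
        rw [mem_union, mem_union]
        right; left
        apply hfam y (by linarith)
        rcases hq with h | h | h
        · exact absurd ⟨y, h⟩ hRA
        · rw [h]; unfold fam; simp
        · rw [h]; unfold fam; simp
      · by_cases h2 : IsRA t
        · obtain ⟨y, rfl⟩ := h2
          have hy : 2 ≤ y := ht.2.2.1
          rw [mem_union, mem_union]
          right; left
          apply hfam y (by linarith)
          unfold fam
          rw [mem_union, mem_union]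
          exact Or.inr (Or.inl hch)
        · by_cases h3 : IsT t
          · obtain ⟨y, m, hm, rfl⟩ := h3
            have hy : 1 ≤ y := ht.1
            rw [mem_union, mem_union]
            right; left
            apply hfam y hy
            unfold fam
            rw [mem_union, mem_union, mem_union]
            rcases hm with rfl | rfl
            · exact Or.inr (Or.inr (Or.inl hch))
            · exact Or.inr (Or.inr (Or.inr hch))
          · rw [mem_union]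
            left
            rw [mem_biUnion]
            refine ⟨t, ?_, hch⟩
            rw [mem_filter]
            refine ⟨?_, by omega⟩
            unfold E2
            rw [mem_filter, mem_Ex]
            exact ⟨⟨ht, by linarith [htb, hN]⟩, h1, h2, h3⟩

theorem sum_ch_le {t : ℤ × ℤ × ℤ} (h : Exc t) (hb : 206 ≤ t.2.1) :
    ∑ q ∈ ch t, w q ≤ 0.983 * w t := by
  classical
  refine le_trans ?_ (children_le h hb)
  have h1 : ch t = {cA t} ∪ ({cB t} ∪ {cC t}) := by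
    unfold ch
    ext q
    simp only [mem_insert, mem_singleton, mem_union]
  rw [h1]
  refine (sum_union_le _ _ w w_nonneg).trans ?_
  have h2 := sum_union_le {cB t} {cC t} w w_nonneg
  simp only [sum_singleton] at h2 ⊢
  linarith

theorem sum_fam_le (y : ℕ) :
    ∑ q ∈ fam ((y : ℤ) + 1), w q ≤ 55 * ((y : ℝ) + 1) ^ (-(4 / 5 : ℝ)) := by
  have hy1 : (0 : ℝ) < (y : ℝ) + 1 := by positivity
  have h1 : ∀ q ∈ fam ((y : ℤ) + 1), w q ≤ 5 * ((y : ℝ) + 1) ^ (-(4 / 5 : ℝ)) := by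
    intro q hq
    have h2 := fam_large (y := (y : ℤ) + 1) (by omega) hq
    have hpos : (0 : ℤ) < ((y : ℤ) + 1) ^ 4 := by positivity
    refine (w_le q).trans ?_
    refine mul_le_mul_of_nonneg_left ?_ (by norm_num)
    refine (g_anti hpos h2).trans ?_
    rw [g_eq hpos]
    push_cast
    rw [← Real.rpow_natCast, ← Real.rpow_mul hy1.le]
    norm_num
  have h3 := Finset.sum_le_card_nsmul (fam ((y : ℤ) + 1)) w _ h1
  refine h3.trans ?_
  rw [nsmul_eq_mul]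
  have h4 : ((fam ((y : ℤ) + 1)).card : ℝ) ≤ 11 := by exact_mod_cast card_fam _
  have h5 : 0 ≤ 5 * ((y : ℝ) + 1) ^ (-(4 / 5 : ℝ)) := by positivity
  calc ((fam ((y : ℤ) + 1)).card : ℝ) * (5 * ((y : ℝ) + 1) ^ (-(4 / 5 : ℝ)))
      ≤ 11 * (5 * ((y : ℝ) + 1) ^ (-(4 / 5 : ℝ))) := mul_le_mul_of_nonneg_right h4 h5
    _ = 55 * ((y : ℝ) + 1) ^ (-(4 / 5 : ℝ)) := by ring

/-- the total weight -/
theorem weight_le (N Y : ℕ) (hY : ∀ y : ℕ, y ^ 4 ≤ N → y ≤ Y) :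
    0.017 * ∑ q ∈ E2 N, w q ≤ 275 * (Y : ℝ) ^ (1 / 5 : ℝ) + ∑ q ∈ small, w q := by
  classical
  have h1 : ∑ q ∈ E2 N, w q ≤
      ∑ q ∈ ((E2 N).filter fun t => 206 ≤ t.2.1).biUnion ch ∪
      ((range Y).biUnion (fun y => fam ((y : ℤ) + 1)) ∪ small), w q :=
    Finset.sum_le_sum_of_subset_of_nonneg (cover N Y hY) fun q _ _ => w_nonneg q
  have h2 := sum_union_le (((E2 N).filter fun t => 206 ≤ t.2.1).biUnion ch)
    ((range Y).biUnion (fun y => fam ((y : ℤ) + 1)) ∪ small) w w_nonneg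
  have h3 := sum_union_le ((range Y).biUnion (fun y => fam ((y : ℤ) + 1))) small w w_nonneg
  have h4 := sum_biUnion_le ((E2 N).filter fun t => 206 ≤ t.2.1) ch w w_nonneg
  have h5 := sum_biUnion_le (range Y) (fun y => fam ((y : ℤ) + 1)) w w_nonneg
  have h6 : ∑ t ∈ (E2 N).filter (fun t => 206 ≤ t.2.1), ∑ q ∈ ch t, w q ≤
      ∑ t ∈ (E2 N).filter (fun t => 206 ≤ t.2.1), 0.983 * w t := by
    refine Finset.sum_le_sum fun t ht => ?_
    rw [mem_filter] at ht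
    have h7 : Exc t := by
      have := ht.1
      unfold E2 at this
      rw [mem_filter, mem_Ex] at this
      exact this.1.1
    exact sum_ch_le h7 ht.2
  have h7 : ∑ t ∈ (E2 N).filter (fun t => 206 ≤ t.2.1), 0.983 * w t ≤
      ∑ t ∈ E2 N, 0.983 * w t :=
    Finset.sum_le_sum_of_subset_of_nonneg (filter_subset _ _)
      fun q _ _ => mul_nonneg (by norm_num) (w_nonneg q)
  rw [← Finset.mul_sum (E2 N)] at h7
  have h8 : ∑ y ∈ range Y, ∑ q ∈ fam ((y : ℤ) + 1), w q ≤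
      ∑ y ∈ range Y, 55 * ((y : ℝ) + 1) ^ (-(4 / 5 : ℝ)) :=
    Finset.sum_le_sum fun y _ => sum_fam_le y
  rw [← Finset.mul_sum] at h8
  have h9 := sum_rpow_le Y
  linarith

/-- There are `O(N^(1/4))` exceptional triples outside the families of degree at most `3`. -/
theorem card_E2_le : ∃ C : ℝ, 0 < C ∧ ∀ N : ℕ, 1 ≤ N →
    ((E2 N).card : ℝ) ≤ C * (N : ℝ) ^ (1 / 4 : ℝ) := by
  classical
  obtain ⟨W, hW⟩ : ∃ W, W = ∑ q ∈ small, w q := ⟨_, rfl⟩
  have hW0 : 0 ≤ W := by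
    rw [hW]
    exact Finset.sum_nonneg fun q _ => w_nonneg q
  refine ⟨(275 + W) / 0.017, by positivity, fun N hN => ?_⟩
  have hN0 : (0 : ℝ) < N := by exact_mod_cast hN
  have hN1 : (1 : ℝ) ≤ N := by exact_mod_cast hN
  set Y := ⌊(N : ℝ) ^ (1 / 4 : ℝ)⌋₊ with hYdef
  have hY : ∀ y : ℕ, y ^ 4 ≤ N → y ≤ Y := by
    intro y hy
    apply Nat.le_floor
    have h1 : ((y : ℝ) ^ 4) ≤ N := by exact_mod_cast hy
    have h2 : (y : ℝ) = ((y : ℝ) ^ 4) ^ (1 / 4 : ℝ) := by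
      rw [← Real.rpow_natCast, ← Real.rpow_mul (Nat.cast_nonneg y)]
      norm_num
    rw [h2]
    exact Real.rpow_le_rpow (by positivity) h1 (by norm_num)
  have h1 := weight_le N Y hY
  rw [← hW] at h1
  have h2 : (Y : ℝ) ^ (1 / 5 : ℝ) ≤ (N : ℝ) ^ (1 / 20 : ℝ) := by
    have h3 : (Y : ℝ) ≤ (N : ℝ) ^ (1 / 4 : ℝ) := Nat.floor_le (by positivity)
    have h4 := Real.rpow_le_rpow (Nat.cast_nonneg Y) h3 (by norm_num : (0:ℝ) ≤ 1 / 5)
    rw [← Real.rpow_mul hN0.le] at h4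
    norm_num at h4 ⊢
    exact h4
  have h3 : (1 : ℝ) ≤ (N : ℝ) ^ (1 / 20 : ℝ) := Real.one_le_rpow hN1 (by norm_num)
  -- each triple has weight at least `N ^ (-1/5)`
  have h4 : ((E2 N).card : ℝ) * (N : ℝ) ^ (-(1 / 5 : ℝ)) ≤ ∑ q ∈ E2 N, w q := by
    have h5 : ∀ q ∈ E2 N, (N : ℝ) ^ (-(1 / 5 : ℝ)) ≤ w q := by
      intro q hq
      unfold E2 at hq
      rw [mem_filter, mem_Ex] at hq
      obtain ⟨⟨⟨e1, e2, _, _⟩, hqN⟩, _⟩ := hq
      have hb : 0 < q.2.1 := by linarith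
      refine le_trans ?_ (g_le_w q)
      have h6 := g_anti hb hqN
      rw [g_eq (by exact_mod_cast hN : (0 : ℤ) < (N : ℤ))] at h6
      exact_mod_cast h6
    have := Finset.card_nsmul_le_sum (E2 N) w _ h5
    rwa [nsmul_eq_mul] at this
  have h5 : (N : ℝ) ^ (1 / 4 : ℝ) = (N : ℝ) ^ (1 / 5 : ℝ) * (N : ℝ) ^ (1 / 20 : ℝ) := by
    rw [← Real.rpow_add hN0]
    norm_num
  have h6 : (N : ℝ) ^ (-(1 / 5 : ℝ)) * (N : ℝ) ^ (1 / 5 : ℝ) = 1 := by
    rw [← Real.rpow_add hN0]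
    norm_num
  have h7 : (0 : ℝ) < (N : ℝ) ^ (1 / 5 : ℝ) := Real.rpow_pos_of_pos hN0 _
  have h8 : 0.017 * (((E2 N).card : ℝ) * (N : ℝ) ^ (-(1 / 5 : ℝ))) ≤
      (275 + W) * (N : ℝ) ^ (1 / 20 : ℝ) := by
    calc 0.017 * (((E2 N).card : ℝ) * (N : ℝ) ^ (-(1 / 5 : ℝ)))
        ≤ 0.017 * ∑ q ∈ E2 N, w q := mul_le_mul_of_nonneg_left h4 (by norm_num)
      _ ≤ 275 * (Y : ℝ) ^ (1 / 5 : ℝ) + W := h1
      _ ≤ 275 * (N : ℝ) ^ (1 / 20 : ℝ) + W * (N : ℝ) ^ (1 / 20 : ℝ) := by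
          have := mul_le_mul_of_nonneg_left h3 hW0
          linarith
      _ = (275 + W) * (N : ℝ) ^ (1 / 20 : ℝ) := by ring
  have h9 := mul_le_mul_of_nonneg_right h8 h7.le
  rw [h5, div_mul_eq_mul_div, le_div_iff₀ (by norm_num)]
  calc ((E2 N).card : ℝ) * 0.017
      = 0.017 * (((E2 N).card : ℝ) * ((N : ℝ) ^ (-(1 / 5 : ℝ)) * (N : ℝ) ^ (1 / 5 : ℝ))) := by
        rw [h6]; ring
    _ = 0.017 * (((E2 N).card : ℝ) * (N : ℝ) ^ (-(1 / 5 : ℝ))) * (N : ℝ) ^ (1 / 5 : ℝ) := by ring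
    _ ≤ (275 + W) * (N : ℝ) ^ (1 / 20 : ℝ) * (N : ℝ) ^ (1 / 5 : ℝ) := h9
    _ = (275 + W) * ((N : ℝ) ^ (1 / 5 : ℝ) * (N : ℝ) ^ (1 / 20 : ℝ)) := by ring

end Pool.Agent.Lib.MP_b40da5_nt.Tree
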