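import Pool.Agent.Lib.MP_b40da5_nt_h57.Count
import Pool.Agent.Lib.MP_b40da5_nt_h57.Coincide
import Pool.Agent.Lib.MP_b40da5_nt.Classes

/-!
# The distribution of the number of classes
-/

set_option autoImplicit false

namespace Pool.Agent.Lib.MP_b40da5_nt

open Finset Pool.Agent.Lib.MP_b40da5_nt.Tree

/-- The `k` with `2 ≤ k ≤ N` for which the number of classes is neither three nor five. -/
noncomputable def failSet (N : ℕ) : Finset ℕ :=
  (Icc 2 N).filter fun k => numClasses k ≠ 3 ∧ numClasses k ≠ 5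

/-- The `k` with `2 ≤ k ≤ N` for which there are exactly five classes. -/
noncomputable def fiveSet (N : ℕ) : Finset ℕ := (Icc 2 N).filter fun k => numClasses k = 5

/-- The `k` with `2 ≤ k ≤ N` for which there are not exactly three classes. -/
noncomputable def nonThree (N : ℕ) : Finset ℕ := (Icc 2 N).filter fun k => numClasses k ≠ 3

lemma exc_of_mem {k y : ℕ} (hk : 2 ≤ k) (h : y ∈ ySet k) (hne : y ≠ k - 1) :
    Exc ((y : ℤ), (k : ℤ), XOf k y) := by
  have hy := (Finset.mem_Icc.mp (Finset.mem_filter.mp h).1)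
  have hX := XOf_pos hk h
  have hs := XOf_spec h
  have hk' : (2 : ℤ) ≤ k := by exact_mod_cast hk
  have hy' : (y : ℤ) ≤ k - 1 := by omega
  refine ⟨by show (1 : ℤ) ≤ y; omega, by show (y : ℤ) < k; omega, ?_, ?_⟩
  · show (2 : ℤ) ≤ XOf k y
    rcases eq_or_lt_of_le hX with h1 | h1
    · exfalso
      have := y_of_X_one hk' hy' hs h1.symm
      omega
    · linarith
  · show (k : ℤ) ^ 2 + (y : ℤ) ^ 2 = XOf k y ^ 2 + 2 * y * k * XOf k y
    linear_combination hs

lemma image_mem {N k : ℕ} {t : ℤ × ℤ × ℤ} (ht : t ∈ E2 N) (hk : t.2.1 = (k : ℤ)) :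
    k ∈ (E2 N).image fun t => t.2.1.toNat := by
  rw [mem_image]
  exact ⟨t, ht, by rw [hk]; simp⟩

lemma fam_of_not_E2 {N : ℕ} {t : ℤ × ℤ × ℤ} (h : Exc t) (hN : t.2.1 ≤ N) (ht : t ∉ E2 N) :
    IsR t ∨ IsRA t ∨ IsT t := by
  by_contra hcon
  push Not at hcon
  apply ht
  classical
  unfold E2
  simp only [mem_filter, mem_Ex]
  exact ⟨⟨h, hN⟩, hcon⟩

theorem fail_subset (N : ℕ) : failSet N ⊆ (E2 N).image fun t => t.2.1.toNat := by
  intro k hk
  unfold failSet at hk
  rw [mem_filter, mem_Icc] at hk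
  obtain ⟨⟨hk2, hkN⟩, h3, h5⟩ := hk
  have hc := numClasses_eq' hk2
  have h1 := one_le_card hk2
  have hcard : 3 ≤ (ySet k).card := by
    by_contra hcon
    have : (ySet k).card = 1 ∨ (ySet k).card = 2 := by omega
    rcases this with h | h
    · rw [h] at hc; omega
    · rw [h] at hc; omega
  have hcard2 : 1 < ((ySet k).erase (k - 1)).card := by
    have := Finset.pred_card_le_card_erase (s := ySet k) (a := k - 1)
    omega
  obtain ⟨y1, hy1, y2, hy2, hne⟩ := Finset.one_lt_card.mp hcard2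
  rw [mem_erase] at hy1 hy2
  have e1 := exc_of_mem hk2 hy1.2 hy1.1
  have e2 := exc_of_mem hk2 hy2.2 hy2.1
  have hkN' : (k : ℤ) ≤ N := by exact_mod_cast hkN
  by_cases m1 : ((y1 : ℤ), (k : ℤ), XOf k y1) ∈ E2 N
  · exact image_mem m1 rfl
  · by_cases m2 : ((y2 : ℤ), (k : ℤ), XOf k y2) ∈ E2 N
    · exact image_mem m2 rfl
    · exfalso
      have f1 := fam_of_not_E2 e1 hkN' m1
      have f2 := fam_of_not_E2 e2 hkN' m2
      have := coincide e1 e2 f1 f2
      exact hne (by exact_mod_cast this)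

/-- the parameters of the roots -/
def rootPar (N : ℕ) : Finset ℕ := (Icc 2 N).filter fun t => 2 * t ^ 2 ≤ N

lemma card_rootPar (N : ℕ) :
    |((rootPar N).card : ℝ) - Real.sqrt (N / 2)| ≤ 2 := by
  have h1 : rootPar N = Icc 2 (Nat.sqrt (N / 2)) := by
    ext t
    unfold rootPar
    rw [mem_filter, mem_Icc, mem_Icc]
    constructor
    · rintro ⟨⟨h1, _⟩, h2⟩
      refine ⟨h1, Nat.le_sqrt.mpr ?_⟩
      rw [Nat.le_div_iff_mul_le (by norm_num)]
      nlinarith
    · rintro ⟨h1, h2⟩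
      have h3 := Nat.le_sqrt.mp h2
      rw [Nat.le_div_iff_mul_le (by norm_num)] at h3
      refine ⟨⟨h1, by nlinarith⟩, by nlinarith⟩
  rw [h1, Nat.card_Icc]
  set F := Nat.sqrt (N / 2) with hF
  have hle : (F : ℝ) ≤ Real.sqrt (N / 2) := by
    apply Real.le_sqrt_of_sq_le
    have h2 : F * F ≤ N / 2 := Nat.sqrt_le (N / 2)
    have h3 : 2 * (F * F) ≤ N := by omega
    have h4 : (2 : ℝ) * (F * F) ≤ N := by exact_mod_cast h3
    nlinarith
  have hlt : Real.sqrt (N / 2) < F + 1 := by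
    rw [Real.sqrt_lt' (by positivity)]
    have h2 : N / 2 < (F + 1) * (F + 1) := Nat.lt_succ_sqrt (N / 2)
    have h3 : N < 2 * ((F + 1) * (F + 1)) := by omega
    have h4 : (N : ℝ) < 2 * ((F + 1) * (F + 1)) := by exact_mod_cast h3
    nlinarith
  have h5 : ((F + 1 - 2 : ℕ) : ℝ) ≤ F := by
    have : F + 1 - 2 ≤ F := by omega
    exact_mod_cast this
  have h6 : (F : ℝ) ≤ ((F + 1 - 2 : ℕ) : ℝ) + 1 := by
    have : F ≤ F + 1 - 2 + 1 := by omega
    exact_mod_cast this
  rw [abs_le]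
  constructor <;> linarith

lemma root_mem {N t : ℕ} (ht : t ∈ rootPar N) : 2 * t ^ 2 ∈ nonThree N := by
  unfold rootPar at ht
  rw [mem_filter, mem_Icc] at ht
  obtain ⟨⟨h1, _⟩, h2⟩ := ht
  have hk : 2 ≤ 2 * t ^ 2 := by nlinarith
  unfold nonThree
  rw [mem_filter, mem_Icc]
  refine ⟨⟨hk, h2⟩, ?_⟩
  rw [numClasses_eq' hk]
  have ht : t ∈ ySet (2 * t ^ 2) := by
    rw [ySet, Finset.mem_filter, Finset.mem_Icc]
    refine ⟨⟨by omega, ?_⟩, ⟨2 * t ^ 3 + t, by ring⟩⟩
    have : t + 1 ≤ 2 * t ^ 2 := by nlinarith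
    omega
  have hk1 : 2 * t ^ 2 - 1 ∈ ySet (2 * t ^ 2) := by
    have := one_le_card hk
    rw [ySet, Finset.mem_filter, Finset.mem_Icc]
    refine ⟨⟨by omega, le_refl _⟩, ?_⟩
    obtain ⟨m, hm⟩ : ∃ m, 2 * t ^ 2 = m + 2 := ⟨2 * t ^ 2 - 2, by omega⟩
    rw [hm]
    refine ⟨(m + 2) ^ 2 - (m + 2) + 1, ?_⟩
    have h1 : (m + 2) ^ 2 - (m + 2) = (m + 2) * (m + 1) := by
      rw [Nat.sub_eq_iff_eq_add (by nlinarith)]; ring
    have h2 : m + 2 - 1 = m + 1 := by omega
    rw [h1, h2]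
    ring
  have hne : t ≠ 2 * t ^ 2 - 1 := by
    have : t + 1 < 2 * t ^ 2 := by nlinarith
    omega
  have : 1 < (ySet (2 * t ^ 2)).card := Finset.one_lt_card.mpr ⟨t, ht, _, hk1, hne⟩
  omega

/-- values of the cubic families -/
def cubics (Z : ℕ) : Finset ℕ :=
  (Icc 1 Z).image (fun y => 4 * y ^ 3 - y) ∪
    ((Icc 1 Z).image (fun y => 4 * y ^ 2 * (y + 1) + 2 * y + (y + 1)) ∪
      (Icc 1 Z).image (fun y => 4 * y ^ 2 * (y - 1) + 2 * y + (y - 1)))

lemma card_cubics (Z : ℕ) : (cubics Z).card ≤ 3 * Z := by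
  unfold cubics
  have h1 := card_union_le ((Icc 1 Z).image (fun y => 4 * y ^ 3 - y))
    ((Icc 1 Z).image (fun y => 4 * y ^ 2 * (y + 1) + 2 * y + (y + 1)) ∪
      (Icc 1 Z).image (fun y => 4 * y ^ 2 * (y - 1) + 2 * y + (y - 1)))
  have h2 := card_union_le ((Icc 1 Z).image (fun y => 4 * y ^ 2 * (y + 1) + 2 * y + (y + 1)))
      ((Icc 1 Z).image (fun y => 4 * y ^ 2 * (y - 1) + 2 * y + (y - 1)))
  have h3 := card_image_le (s := Icc 1 Z) (f := fun y => 4 * y ^ 3 - y)
  have h4 := card_image_le (s := Icc 1 Z) (f := fun y => 4 * y ^ 2 * (y + 1) + 2 * y + (y + 1))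
  have h5 := card_image_le (s := Icc 1 Z) (f := fun y => 4 * y ^ 2 * (y - 1) + 2 * y + (y - 1))
  rw [Nat.card_Icc] at h3 h4 h5
  omega

lemma nonThree_subset (N Z : ℕ) (hZ : ∀ y : ℕ, y ^ 3 ≤ N → y ≤ Z) :
    nonThree N ⊆ (rootPar N).image (fun t => 2 * t ^ 2) ∪
      (cubics Z ∪ (E2 N).image fun t => t.2.1.toNat) := by
  intro k hk
  unfold nonThree at hk
  rw [mem_filter, mem_Icc] at hk
  obtain ⟨⟨hk2, hkN⟩, h3⟩ := hk
  have hc := numClasses_eq' hk2
  have h1 := one_le_card hk2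
  have hcard : 1 < (ySet k).card := by
    by_contra hcon
    have : (ySet k).card = 1 := by omega
    rw [this] at hc; omega
  have hcard2 : 0 < ((ySet k).erase (k - 1)).card := by
    have := Finset.pred_card_le_card_erase (s := ySet k) (a := k - 1)
    omega
  obtain ⟨y, hy⟩ := Finset.card_pos.mp hcard2
  rw [mem_erase] at hy
  have e1 := exc_of_mem hk2 hy.2 hy.1
  have hkN' : (k : ℤ) ≤ N := by exact_mod_cast hkN
  rw [mem_union, mem_union]
  by_cases m1 : ((y : ℤ), (k : ℤ), XOf k y) ∈ E2 N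
  · exact Or.inr (Or.inr (image_mem m1 rfl))
  · rcases fam_of_not_E2 e1 hkN' m1 with ⟨z, hz⟩ | ⟨z, hz⟩ | ⟨z, m, hm, hz⟩
    · left
      have hy0 : (y : ℤ) = z := congrArg Prod.fst hz
      have hk0 : (k : ℤ) = 2 * z ^ 2 := congrArg (fun t => t.2.1) hz
      have hX0 : XOf k y = z := congrArg (fun t => t.2.2) hz
      have h2 : (2 : ℤ) ≤ XOf k y := e1.2.2.1
      rw [mem_image]
      refine ⟨y, ?_, ?_⟩
      · unfold rootPar
        rw [mem_filter, mem_Icc]
        rw [← hy0] at hk0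
        have hk1 : k = 2 * y ^ 2 := by exact_mod_cast hk0
        have hy2 : 2 ≤ y := by
          rw [hX0, ← hy0] at h2
          exact_mod_cast h2
        refine ⟨⟨hy2, ?_⟩, by omega⟩
        nlinarith
      · rw [← hy0] at hk0
        exact_mod_cast hk0.symm
    · right; left
      have hX0 : XOf k y = z := congrArg (fun t => t.2.2) hz
      have hk0 : (k : ℤ) = 2 * z * (2 * z ^ 2) - z := congrArg (fun t => t.2.1) hz
      have h2 : (2 : ℤ) ≤ XOf k y := e1.2.2.1
      rw [hX0] at h2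
      obtain ⟨u, rfl⟩ : ∃ u : ℕ, z = (u : ℤ) := ⟨z.toNat, by omega⟩
      have hu : 2 ≤ u := by exact_mod_cast h2
      have hk1 : k + u = 4 * u ^ 3 := by
        zify
        linear_combination hk0
      unfold cubics
      rw [mem_union]
      left
      rw [mem_image]
      have h5 : u ≤ u ^ 3 := Nat.le_self_pow (by norm_num) u
      refine ⟨u, ?_, by omega⟩
      rw [mem_Icc]
      refine ⟨by omega, hZ u ?_⟩
      omega
    · right; left
      have hy0 : (y : ℤ) = z := congrArg Prod.fst hz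
      have hk0 : (k : ℤ) = 4 * z ^ 2 * m + 2 * z + m := congrArg (fun t => t.2.1) hz
      have hX0 : XOf k y = 2 * z * m + 1 := congrArg (fun t => t.2.2) hz
      have h2 : (2 : ℤ) ≤ XOf k y := e1.2.2.1
      have h4 : (1 : ℤ) ≤ y := e1.1
      rw [← hy0] at hk0 hX0 hm
      unfold cubics
      rw [mem_union, mem_union]
      right
      rcases hm with rfl | rfl
      · left
        rw [mem_image]
        have hk1 : k = 4 * y ^ 2 * (y + 1) + 2 * y + (y + 1) := by exact_mod_cast hk0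
        refine ⟨y, ?_, hk1.symm⟩
        rw [mem_Icc]
        refine ⟨by omega, hZ y ?_⟩
        nlinarith [sq_nonneg (y : ℤ)]
      · right
        rw [mem_image]
        obtain ⟨v, rfl⟩ : ∃ v : ℕ, y = v + 1 := ⟨y - 1, by omega⟩
        have hk1 : k = 4 * (v + 1) ^ 2 * v + 2 * (v + 1) + v := by
          push_cast at hk0
          zify
          linear_combination hk0
        have hv : 1 ≤ v := by
          rw [hX0] at h2
          push_cast at h2
          by_contra hcon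
          have : v = 0 := by omega
          subst this
          norm_num at h2
        refine ⟨v + 1, ?_, ?_⟩
        · rw [mem_Icc]
          refine ⟨by omega, hZ (v + 1) ?_⟩
          refine le_trans ?_ hkN
          rw [hk1]
          nlinarith [Nat.mul_le_mul hv hv]
        · rw [hk1]
          simp

theorem main_distribution : ∃ C : ℝ, 0 < C ∧ ∀ N : ℕ, 1 ≤ N →
    ((failSet N).card : ℝ) ≤ C * (N : ℝ) ^ (1 / 4 : ℝ) ∧
    |((fiveSet N).card : ℝ) - Real.sqrt (N / 2)| ≤ C * (N : ℝ) ^ (1 / 3 : ℝ) := by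
  classical
  obtain ⟨C, hC, hE⟩ := card_E2_le
  refine ⟨5 + C, by positivity, fun N hN => ?_⟩
  have hN1 : (1 : ℝ) ≤ N := by exact_mod_cast hN
  have hfail : ((failSet N).card : ℝ) ≤ ((E2 N).card : ℝ) := by
    exact_mod_cast (card_le_card (fail_subset N)).trans card_image_le
  have h14 : (1 : ℝ) ≤ (N : ℝ) ^ (1 / 4 : ℝ) := Real.one_le_rpow hN1 (by norm_num)
  have h13 : (1 : ℝ) ≤ (N : ℝ) ^ (1 / 3 : ℝ) := Real.one_le_rpow hN1 (by norm_num)
  have h1413 : (N : ℝ) ^ (1 / 4 : ℝ) ≤ (N : ℝ) ^ (1 / 3 : ℝ) :=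
    Real.rpow_le_rpow_of_exponent_le hN1 (by norm_num)
  have hE' := hE N hN
  refine ⟨by nlinarith, ?_⟩
  set Z := ⌊(N : ℝ) ^ (1 / 3 : ℝ)⌋₊ with hZdef
  have hZ : ∀ y : ℕ, y ^ 3 ≤ N → y ≤ Z := by
    intro y hy
    apply Nat.le_floor
    have h1 : ((y : ℝ) ^ 3) ≤ N := by exact_mod_cast hy
    have h2 : (y : ℝ) = ((y : ℝ) ^ 3) ^ (1 / 3 : ℝ) := by
      rw [← Real.rpow_natCast, ← Real.rpow_mul (Nat.cast_nonneg y)]
      norm_num
    rw [h2]
    exact Real.rpow_le_rpow (by positivity) h1 (by norm_num)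
  have hZle : (Z : ℝ) ≤ (N : ℝ) ^ (1 / 3 : ℝ) := Nat.floor_le (by positivity)
  have hup : (nonThree N).card ≤ (rootPar N).card + (3 * Z + (E2 N).card) := by
    refine (card_le_card (nonThree_subset N Z hZ)).trans ?_
    refine (card_union_le _ _).trans ?_
    refine Nat.add_le_add card_image_le ?_
    refine (card_union_le _ _).trans ?_
    exact Nat.add_le_add (card_cubics Z) card_image_le
  have hlow : (rootPar N).card ≤ (nonThree N).card := by
    refine Finset.card_le_card_of_injOn (fun t => 2 * t ^ 2) (fun t ht => root_mem ht) ?_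
    intro a _ b _ hab
    have : a ^ 2 = b ^ 2 := by
      have h : 2 * a ^ 2 = 2 * b ^ 2 := hab
      omega
    exact Nat.pow_left_injective (by norm_num : (2 : ℕ) ≠ 0) this
  have hsplit : (nonThree N).card = (fiveSet N).card + (failSet N).card := by
    rw [← card_union_of_disjoint]
    · congr 1
      ext k
      unfold nonThree fiveSet failSet
      simp only [mem_union, mem_filter]
      constructor
      · rintro ⟨h1, h2⟩
        by_cases h5 : numClasses k = 5
        · exact Or.inl ⟨h1, h5⟩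
        · exact Or.inr ⟨h1, h2, h5⟩
      · rintro (⟨h1, h2⟩ | ⟨h1, h2, _⟩)
        · exact ⟨h1, by omega⟩
        · exact ⟨h1, h2⟩
    · rw [disjoint_left]
      intro k hk hk'
      unfold fiveSet at hk
      unfold failSet at hk'
      rw [mem_filter] at hk hk'
      exact hk'.2.2 hk.2
  have hroot := card_rootPar N
  rw [abs_le] at hroot ⊢
  have hup' : ((nonThree N).card : ℝ) ≤ (rootPar N).card + (3 * Z + (E2 N).card) := by
    exact_mod_cast hup
  have hlow' : ((rootPar N).card : ℝ) ≤ (nonThree N).card := by exact_mod_cast hlow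
  have hsplit' : ((nonThree N).card : ℝ) = (fiveSet N).card + (failSet N).card := by
    exact_mod_cast hsplit
  have hf0 : (0 : ℝ) ≤ (failSet N).card := Nat.cast_nonneg _
  have hCC := mul_le_mul_of_nonneg_left h1413 hC.le
  constructor <;> nlinarith

end Pool.Agent.Lib.MP_b40da5_nt
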