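import Mathlib

/-!
# The descent tree of the exceptional pairs of `x² − (k²+1) y² = k²`
-/

set_option autoImplicit false

namespace Pool.Agent.Lib.MP_b40da5_nt.Tree

/-- Exceptional triples: `k² + y² - X² = 2 k X y` with `1 ≤ y < k`, `X ≥ 2`
(`y = a`, `k = b`). -/
def Exc (t : ℤ × ℤ × ℤ) : Prop :=
  1 ≤ t.1 ∧ t.1 < t.2.1 ∧ 2 ≤ t.2.2 ∧
    t.2.1 ^ 2 + t.1 ^ 2 = t.2.2 ^ 2 + 2 * t.1 * t.2.1 * t.2.2

/-- the three children -/
def cA (t : ℤ × ℤ × ℤ) : ℤ × ℤ × ℤ := (t.2.1, 2 * t.2.2 * t.2.1 - t.1, t.2.2)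
def cB (t : ℤ × ℤ × ℤ) : ℤ × ℤ × ℤ :=
  (t.1, 4 * t.1 ^ 2 * t.2.1 + 2 * t.1 * t.2.2 + t.2.1, 2 * t.1 * t.2.1 + t.2.2)
def cC (t : ℤ × ℤ × ℤ) : ℤ × ℤ × ℤ :=
  (t.2.1, 4 * t.1 * t.2.1 ^ 2 + 2 * t.2.1 * t.2.2 + t.1, 2 * t.1 * t.2.1 + t.2.2)

/-- the root with parameter `y` -/
def rt (y : ℤ) : ℤ × ℤ × ℤ := (y, 2 * y ^ 2, y)
/-- the triple with parameter `y`, `m` (`|y - m| = 1`) -/
def tt (y m : ℤ) : ℤ × ℤ × ℤ := (y, 4 * y ^ 2 * m + 2 * y + m, 2 * y * m + 1)

theorem X_lt {a b X : ℤ} (h : Exc (a, b, X)) : X < b := by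
  obtain ⟨h1, h2, h3, h4⟩ := h
  simp only at h1 h2 h3 h4
  by_contra hcon
  push Not at hcon
  have hb : 0 < b := by linarith
  nlinarith [mul_pos hb hb, mul_le_mul hcon hcon hb.le (by linarith : (0:ℤ) ≤ X),
    mul_pos (mul_pos hb hb) (by linarith : (0:ℤ) < a), mul_nonneg (mul_nonneg (by linarith : (0:ℤ) ≤ a) hb.le) (sub_nonneg.mpr hcon)]

theorem descent {a b X : ℤ} (h : Exc (a, b, X)) :
    (a, b, X) = rt a ∨ (∃ m, (m = a + 1 ∨ m = a - 1) ∧ (a, b, X) = tt a m) ∨
      ∃ t, Exc t ∧ t.2.1 < b ∧ ((a, b, X) = cA t ∨ (a, b, X) = cB t ∨ (a, b, X) = cC t) := by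
  obtain ⟨h1, h2, h3, h4⟩ := h
  simp only at h1 h2 h3 h4
  have hb : 0 < b := by linarith
  rcases lt_trichotomy X a with hX | hX | hX
  · -- `X < a`
    right; right
    set a' := 2 * X * a - b with ha'
    have e1 : b * a' = a ^ 2 - X ^ 2 := by rw [ha']; linarith
    have h5 : 0 < a ^ 2 - X ^ 2 := by nlinarith
    have h6 : 0 < a' := by
      by_contra hcon
      push Not at hcon
      nlinarith
    have h7 : a' < a := by
      by_contra hcon
      push Not at hcon
      have : b * a ≤ b * a' := mul_le_mul_of_nonneg_left hcon hb.le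
      nlinarith
    refine ⟨(a', a, X), ⟨h6, h7, h3, ?_⟩, h2, Or.inl ?_⟩
    · show a ^ 2 + a' ^ 2 = X ^ 2 + 2 * a' * a * X
      have e2 : b = 2 * X * a - a' := by rw [ha']; ring
      rw [e2] at e1
      nlinarith
    · show (a, b, X) = (a, 2 * X * a - a', X)
      rw [ha']
      congr 2
      ring
  · left
    subst hX
    have h5 : b * (b - 2 * X ^ 2) = 0 := by nlinarith
    rcases mul_eq_zero.mp h5 with h6 | h6
    · omega
    · show (X, b, X) = (X, 2 * X ^ 2, X)
      have : b = 2 * X ^ 2 := by linarith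
      rw [this]
  · -- `a < X`
    right
    set m := b - 2 * X * a with hm
    have e1 : b * m = X ^ 2 - a ^ 2 := by rw [hm]; nlinarith
    have h5 : 0 < X ^ 2 - a ^ 2 := by nlinarith
    have h6 : 0 < m := by
      by_contra hcon
      push Not at hcon
      nlinarith
    have eb : b = 2 * X * a + m := by rw [hm]; ring
    have e2 : m ^ 2 + a ^ 2 = X ^ 2 - 2 * X * a * m := by
      rw [eb] at e1
      nlinarith
    set X' := X - 2 * a * m with hX'
    have e3 : X * X' = m ^ 2 + a ^ 2 := by rw [hX', e2]; ring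
    have h7 : 0 < X' := by
      by_contra hcon
      push Not at hcon
      have : X * X' ≤ 0 := mul_nonpos_of_nonneg_of_nonpos (by linarith) hcon
      nlinarith
    have eX : X = 2 * a * m + X' := by rw [hX']; ring
    have e4 : X' ^ 2 + 2 * a * m * X' = a ^ 2 + m ^ 2 := by
      rw [eX] at e3
      nlinarith
    have eb' : b = 4 * a ^ 2 * m + 2 * a * X' + m := by rw [eb, eX]; ring
    rcases eq_or_lt_of_le (by linarith : (1 : ℤ) ≤ X') with h8 | h8
    · left
      have h9 : (m - a) ^ 2 = 1 := by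
        rw [← h8] at e4
        nlinarith
      have h10 : m - a = 1 ∨ m - a = -1 := by
        have h11 : (m - a - 1) * (m - a + 1) = 0 := by nlinarith
        rcases mul_eq_zero.mp h11 with h | h
        · exact Or.inl (by linarith)
        · exact Or.inr (by linarith)
      refine ⟨m, ?_, ?_⟩
      · rcases h10 with h | h
        · left; linarith
        · right; linarith
      · show (a, b, X) = (a, 4 * a ^ 2 * m + 2 * a + m, 2 * a * m + 1)
        rw [eb', eX, ← h8]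
        congr 2
        ring
    · right
      have hX2 : 2 ≤ X' := by linarith
      rcases lt_trichotomy a m with h9 | h9 | h9
      · refine ⟨(a, m, X'), ⟨h1, h9, hX2, ?_⟩, ?_, Or.inr (Or.inl ?_)⟩
        · show m ^ 2 + a ^ 2 = X' ^ 2 + 2 * a * m * X'
          linarith
        · show m < b
          nlinarith [mul_pos (by linarith : (0:ℤ) < X) (by linarith : (0:ℤ) < a)]
        · show (a, b, X) = (a, 4 * a ^ 2 * m + 2 * a * X' + m, 2 * a * m + X')
          rw [eb', eX]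
      · exfalso
        rw [← h9] at e4
        nlinarith [mul_pos (by linarith : (0:ℤ) < a) (by linarith : (0:ℤ) < a)]
      · refine ⟨(m, a, X'), ⟨h6, h9, hX2, ?_⟩, h2, Or.inr (Or.inr ?_)⟩
        · show a ^ 2 + m ^ 2 = X' ^ 2 + 2 * m * a * X'
          linarith
        · show (a, b, X) = (a, 4 * m * a ^ 2 + 2 * a * X' + m, 2 * m * a + X')
          rw [eb', eX]
          congr 2 <;> ring

end Pool.Agent.Lib.MP_b40da5_nt.Tree
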