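import Pool.Agent.Lib.MP_b40da5_nt_h57.Tree

/-!
# Weights on the descent tree
-/

set_option autoImplicit false

namespace Pool.Agent.Lib.MP_b40da5_nt.Tree

/-- `b ^ (-1/5)` -/
noncomputable def g (b : ℤ) : ℝ := ((b.toNat : ℕ) : ℝ) ^ (-(1 / 5 : ℝ))

theorem g_eq {b : ℤ} (hb : 0 < b) : g b = (b : ℝ) ^ (-(1 / 5 : ℝ)) := by
  have h : ((b.toNat : ℕ) : ℝ) = (b : ℝ) := by
    have : ((b.toNat : ℕ) : ℤ) = b := Int.toNat_of_nonneg hb.le
    exact_mod_cast this
  rw [g, h]

theorem g_pow {b : ℤ} (hb : 0 < b) : g b ^ 5 = 1 / (b : ℝ) := by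
  have hb' : (0 : ℝ) < b := by exact_mod_cast hb
  rw [g_eq hb, ← Real.rpow_natCast, ← Real.rpow_mul hb'.le]
  norm_num
  rw [Real.rpow_neg_one]

theorem g_nonneg (b : ℤ) : 0 ≤ g b := Real.rpow_nonneg (Nat.cast_nonneg _) _

theorem g_le {b b' : ℤ} (hb : 0 < b) {R c : ℝ} (hR : 0 < R) (hc : 0 < c) (h : 1 ≤ R * c ^ 5)
    (hb' : R * b ≤ b') : g b' ≤ c * g b := by
  have hb0 : (0 : ℝ) < b := by exact_mod_cast hb
  have hb1 : (0 : ℝ) < b' := lt_of_lt_of_le (mul_pos hR hb0) hb'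
  have hb2 : 0 < b' := by exact_mod_cast hb1
  refine le_of_pow_le_pow_left₀ (n := 5) (by norm_num)
    (mul_nonneg hc.le (g_nonneg b)) ?_
  rw [mul_pow, g_pow hb, g_pow hb2]
  rw [div_le_iff₀ hb1]
  have h1 : (1 : ℝ) ≤ c ^ 5 * (1 / b) * (R * b) := by
    have : c ^ 5 * (1 / b) * (R * b) = R * c ^ 5 := by
      field_simp
    rw [this]
    exact h
  refine h1.trans (mul_le_mul_of_nonneg_left hb' ?_)
  positivity

theorem g_le_one {b : ℤ} (hb : 0 < b) : g b ≤ 1 := by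
  have hb' : (1 : ℝ) ≤ b := by exact_mod_cast hb
  rw [g_eq hb]
  exact Real.rpow_le_one_of_one_le_of_nonpos hb' (by norm_num)

theorem g_anti {b b' : ℤ} (hb : 0 < b) (h : b ≤ b') : g b' ≤ g b := by
  have := g_le (b := b) (b' := b') hb (R := 1) (c := 1) one_pos one_pos (by norm_num)
    (by rw [one_mul]; exact_mod_cast h)
  rwa [one_mul] at this

open Classical in
/-- the weight -/
noncomputable def w (t : ℤ × ℤ × ℤ) : ℝ := (if t.1 < 206 then 5 else 1) * g t.2.1

theorem w_nonneg (t : ℤ × ℤ × ℤ) : 0 ≤ w t := by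
  unfold w
  have := g_nonneg t.2.1
  split_ifs <;> positivity

theorem w_le (t : ℤ × ℤ × ℤ) : w t ≤ 5 * g t.2.1 := by
  unfold w
  have := g_nonneg t.2.1
  split_ifs
  · exact le_rfl
  · linarith

theorem g_le_w (t : ℤ × ℤ × ℤ) : g t.2.1 ≤ w t := by
  unfold w
  have := g_nonneg t.2.1
  split_ifs
  · linarith
  · linarith

theorem children_le {t : ℤ × ℤ × ℤ} (h : Exc t) (hb : 206 ≤ t.2.1) :
    w (cA t) + w (cB t) + w (cC t) ≤ 0.983 * w t := by
  obtain ⟨a, b, X⟩ := t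
  obtain ⟨h1, h2, h3, h4⟩ := h
  simp only at h1 h2 h3 h4 hb
  have hb0 : 0 < b := by linarith
  have hgb := g_nonneg b
  have hA : w (cA (a, b, X)) ≤ 0.803 * g b := by
    have h5 : w (cA (a, b, X)) = g (2 * X * b - a) := by
      unfold w cA
      simp only
      rw [if_neg (by linarith), one_mul]
    rw [h5]
    refine g_le hb0 (R := 3) (by norm_num) (by norm_num) (by norm_num) ?_
    have : 3 * b ≤ 2 * X * b - a := by nlinarith
    exact_mod_cast this
  by_cases ha : a < 206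
  · have hB : w (cB (a, b, X)) ≤ 5 * (0.725 * g b) := by
      have h5 : w (cB (a, b, X)) = 5 * g (4 * a ^ 2 * b + 2 * a * X + b) := by
        unfold w cB
        simp only
        rw [if_pos ha]
      rw [h5]
      refine mul_le_mul_of_nonneg_left ?_ (by norm_num)
      refine g_le hb0 (R := 5) (by norm_num) (by norm_num) (by norm_num) ?_
      have : 5 * b ≤ 4 * a ^ 2 * b + 2 * a * X + b := by
        nlinarith [mul_nonneg (mul_nonneg (sub_nonneg.mpr h1) (by linarith : (0:ℤ) ≤ a + 1)) hb0.le,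
          mul_nonneg (by linarith : (0:ℤ) ≤ a) (by linarith : (0:ℤ) ≤ X)]
      exact_mod_cast this
    have hC : w (cC (a, b, X)) ≤ 0.262 * g b := by
      have h5 : w (cC (a, b, X)) = g (4 * a * b ^ 2 + 2 * b * X + a) := by
        unfold w cC
        simp only
        rw [if_neg (by linarith), one_mul]
      rw [h5]
      refine g_le hb0 (R := 824) (by norm_num) (by norm_num) (by norm_num) ?_
      have : 824 * b ≤ 4 * a * b ^ 2 + 2 * b * X + a := by
        nlinarith [mul_nonneg (mul_nonneg (by linarith : (0:ℤ) ≤ a) hb0.le) (sub_nonneg.mpr hb),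
          mul_nonneg (sub_nonneg.mpr h1) hb0.le,
          mul_nonneg hb0.le (by linarith : (0:ℤ) ≤ X)]
      exact_mod_cast this
    have hw : w (a, b, X) = 5 * g b := by
      unfold w
      simp only
      rw [if_pos ha]
    rw [hw]
    linarith
  · push Not at ha
    have hB : w (cB (a, b, X)) ≤ 0.09 * g b := by
      have h5 : w (cB (a, b, X)) = g (4 * a ^ 2 * b + 2 * a * X + b) := by
        unfold w cB
        simp only
        rw [if_neg (by linarith), one_mul]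
      rw [h5]
      refine g_le hb0 (R := 169744) (by norm_num) (by norm_num) (by norm_num) ?_
      have h6 : 42436 * b ≤ a ^ 2 * b := by
        apply mul_le_mul_of_nonneg_right _ hb0.le
        nlinarith
      have : 169744 * b ≤ 4 * a ^ 2 * b + 2 * a * X + b := by
        nlinarith [mul_nonneg (by linarith : (0:ℤ) ≤ a) (by linarith : (0:ℤ) ≤ X)]
      exact_mod_cast this
    have hC : w (cC (a, b, X)) ≤ 0.09 * g b := by
      have h5 : w (cC (a, b, X)) = g (4 * a * b ^ 2 + 2 * b * X + a) := by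
        unfold w cC
        simp only
        rw [if_neg (by linarith), one_mul]
      rw [h5]
      refine g_le hb0 (R := 169744) (by norm_num) (by norm_num) (by norm_num) ?_
      have h6 : 42436 * b ≤ (a * b) * b := by
        apply mul_le_mul_of_nonneg_right _ hb0.le
        nlinarith
      have : 169744 * b ≤ 4 * a * b ^ 2 + 2 * b * X + a := by
        nlinarith [mul_nonneg hb0.le (by linarith : (0:ℤ) ≤ X)]
      exact_mod_cast this
    have hw : w (a, b, X) = g b := by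
      unfold w
      simp only
      rw [if_neg (by linarith), one_mul]
    rw [hw]
    linarith

/-- telescoping -/
theorem rpow_tel (y : ℕ) : ((y : ℝ) + 1) ^ (-(4 / 5 : ℝ)) ≤
    5 * (((y : ℝ) + 1) ^ (1 / 5 : ℝ) - (y : ℝ) ^ (1 / 5 : ℝ)) := by
  have hy : (0 : ℝ) ≤ y := Nat.cast_nonneg y
  have hy1 : (0 : ℝ) < (y : ℝ) + 1 := by linarith
  set t := ((y : ℝ) + 1) ^ (1 / 5 : ℝ) with ht
  set s := (y : ℝ) ^ (1 / 5 : ℝ) with hs
  have ht0 : 0 < t := Real.rpow_pos_of_pos hy1 _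
  have hs0 : 0 ≤ s := Real.rpow_nonneg hy _
  have hst : s ≤ t := Real.rpow_le_rpow hy (by linarith) (by norm_num)
  have ht5 : t ^ 5 = (y : ℝ) + 1 := by
    rw [ht, ← Real.rpow_natCast, ← Real.rpow_mul hy1.le]
    norm_num
  have hs5 : s ^ 5 = (y : ℝ) := by
    rw [hs, ← Real.rpow_natCast, ← Real.rpow_mul hy]
    norm_num
  have h1 : ((y : ℝ) + 1) ^ (-(4 / 5 : ℝ)) = 1 / t ^ 4 := by
    rw [ht, ← Real.rpow_natCast, ← Real.rpow_mul hy1.le, one_div, ← Real.rpow_neg hy1.le]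
    norm_num
  rw [h1, div_le_iff₀ (by positivity)]
  have h2 : t ^ 5 - s ^ 5 = 1 := by rw [ht5, hs5]; ring
  have h3 : t ^ 5 - s ^ 5 = (t - s) * (t ^ 4 + t ^ 3 * s + t ^ 2 * s ^ 2 + t * s ^ 3 + s ^ 4) := by
    ring
  have h4 : t ^ 4 + t ^ 3 * s + t ^ 2 * s ^ 2 + t * s ^ 3 + s ^ 4 ≤ 5 * t ^ 4 := by
    have e1 : t ^ 3 * s ≤ t ^ 3 * t := mul_le_mul_of_nonneg_left hst (by positivity)
    have e2 : t ^ 2 * s ^ 2 ≤ t ^ 2 * t ^ 2 :=
      mul_le_mul_of_nonneg_left (pow_le_pow_left₀ hs0 hst 2) (by positivity)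
    have e3 : t * s ^ 3 ≤ t * t ^ 3 :=
      mul_le_mul_of_nonneg_left (pow_le_pow_left₀ hs0 hst 3) (by positivity)
    have e4 : s ^ 4 ≤ t ^ 4 := pow_le_pow_left₀ hs0 hst 4
    nlinarith
  have h5 : (1 : ℝ) ≤ (t - s) * (5 * t ^ 4) := by
    rw [← h2, h3]
    exact mul_le_mul_of_nonneg_left h4 (sub_nonneg.mpr hst)
  linarith

theorem sum_rpow_le (Y : ℕ) : ∑ y ∈ Finset.range Y, ((y : ℝ) + 1) ^ (-(4 / 5 : ℝ)) ≤
    5 * (Y : ℝ) ^ (1 / 5 : ℝ) := by
  induction Y with
  | zero => simp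
  | succ Y ih =>
    rw [Finset.sum_range_succ]
    have := rpow_tel Y
    push_cast
    linarith

end Pool.Agent.Lib.MP_b40da5_nt.Tree
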